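import Pool.Agent.Lib.MP_583a9a_co.Final

/-!
No bounded palette forces `(k+1)`-choosability: for every `j ≥ 1`, every `k ≥ 10^6 j^3` and every
palette size there is a graph that is choosable from that palette with lists of size `k` but is
not `(k+j)`-choosable.
-/

namespace Pool.Agent.Results.MP_583a9a_co.NoPalette

/-- `G` is `(k,0,p)`-choosable: every assignment of lists of size at least `k` using at most `p`
colours in total admits a proper colouring from the lists. -/
def PaletteChoosable {n : ℕ} (G : SimpleGraph (Fin n)) (k p : ℕ) : Prop :=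
  ∀ L : Fin n → Finset ℕ, (∀ v, k ≤ (L v).card) → (Finset.univ.biUnion L).card ≤ p →
    ∃ φ : Fin n → ℕ, (∀ v, φ v ∈ L v) ∧ ∀ u v, G.Adj u v → φ u ≠ φ v

/-- `G` is `k`-choosable. -/
def Choosable {n : ℕ} (G : SimpleGraph (Fin n)) (k : ℕ) : Prop :=
  ∀ L : Fin n → Finset ℕ, (∀ v, k ≤ (L v).card) →
    ∃ φ : Fin n → ℕ, (∀ v, φ v ∈ L v) ∧ ∀ u v, G.Adj u v → φ u ≠ φ v

theorem result (j k : ℕ) (hj : 1 ≤ j) (hk : 1000000 * j ^ 3 ≤ k) (l : ℕ) :
    ∃ (n : ℕ) (G : SimpleGraph (Fin n)), PaletteChoosable G k l ∧ ¬ Choosable G (k + j) := by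
  obtain ⟨V, _, G, h1, L0, h2, h3⟩ := Pool.Agent.Lib.MP_583a9a_co.main_type j k l hj hk
  let e : V ≃ Fin (Fintype.card V) := Fintype.equivFin V
  refine ⟨Fintype.card V, G.comap e.symm, ?_, ?_⟩
  · intro L hL hP
    obtain ⟨φ, h4, h5⟩ := h1 (fun v => L (e v)) (fun v => hL _) _ hP
      (fun v => Finset.subset_biUnion_of_mem L (Finset.mem_univ (e v)))
    refine ⟨fun v => φ (e.symm v), fun v => ?_, fun u v h => h5 _ _ h⟩
    simpa using h4 (e.symm v)
  · intro hc
    obtain ⟨φ, h4, h5⟩ := hc (fun v => L0 (e.symm v)) (fun v => h2 _)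
    refine h3 ⟨fun v => φ (e v), fun v => ?_, fun u v h => h5 _ _ ?_⟩
    · simpa using h4 (e v)
    · simpa using h

end Pool.Agent.Results.MP_583a9a_co.NoPalette
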